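import Mathlib

set_option autoImplicit false

/-!
# Polynomials of degree at most three are not injective on the plane

Through a point `P` of the plane over a field of characteristic zero, where the gradient of the
polynomial `f` of degree at most three does not vanish, take the tangent `P + s w` of the level curve
of `f`. Then `f (P + s w) = f (P) + A s ^ 2 + B s ^ 3`. If `B = 0` then `f (P + w) = f (P - w)`; if
`A, B ≠ 0` then `f (P - (A / B) w) = f (P)`. There remains the case of an inflection point, `A = 0 ≠ B`;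
then `A ≠ 0` at some other point of the tangent, because `A (P + t w) = A + 3 B t + O(t ^ 2)`.
-/

namespace Pool.Agent.Results.MP_adc87d_lc.DegreeThree

/-- The polynomial of degree at most three in two variables with the coefficients `a i j`,
`i + j ≤ 3`. -/
def poly {K : Type*} [Field K] (a : ℕ → ℕ → K) (x y : K) : K :=
  ∑ i ∈ Finset.range 4, ∑ j ∈ Finset.range (4 - i), a i j * x ^ i * y ^ j

/-- The same with named coefficients. -/
def F {K : Type*} [Field K] (c a b q20 q11 q02 c30 c21 c12 c03 x y : K) : K :=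
  c + a * x + b * y + q20 * x ^ 2 + q11 * x * y + q02 * y ^ 2 + c30 * x ^ 3 + c21 * x ^ 2 * y +
    c12 * x * y ^ 2 + c03 * y ^ 3

theorem poly_eq {K : Type*} [Field K] (a : ℕ → ℕ → K) (x y : K) :
    poly a x y = F (a 0 0) (a 1 0) (a 0 1) (a 2 0) (a 1 1) (a 0 2) (a 3 0) (a 2 1) (a 1 2) (a 0 3)
      x y := by
  simp only [poly, F, Finset.sum_range_succ, Finset.sum_range_zero]
  simp
  ring

section
variable {K : Type*} [Field K] (c a b q20 q11 q02 c30 c21 c12 c03 : K)

/-- Not injective. -/
def NotInj (f : K → K → K) : Prop := ∃ x y x' y' : K, (x, y) ≠ (x', y') ∧ f x y = f x' y'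

/-- The tangent at a point where the second derivative along the tangent is not zero. -/
theorem tangent [CharZero K] (x y u v A B : K)
    (hu : u = a + 2 * q20 * x + q11 * y + 3 * c30 * x ^ 2 + 2 * c21 * x * y + c12 * y ^ 2)
    (hv : v = b + q11 * x + 2 * q02 * y + c21 * x ^ 2 + 2 * c12 * x * y + 3 * c03 * y ^ 2)
    (hA : A = (q20 + 3 * c30 * x + c21 * y) * v ^ 2 - (q11 + 2 * c21 * x + 2 * c12 * y) * u * v +
      (q02 + c12 * x + 3 * c03 * y) * u ^ 2)
    (hB : B = -c30 * v ^ 3 + c21 * v ^ 2 * u - c12 * v * u ^ 2 + c03 * u ^ 3)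
    (h : A ≠ 0) : NotInj (F c a b q20 q11 q02 c30 c21 c12 c03) := by
  have key : ∀ s : K, F c a b q20 q11 q02 c30 c21 c12 c03 (x - s * v) (y + s * u) =
      F c a b q20 q11 q02 c30 c21 c12 c03 x y + A * s ^ 2 + B * s ^ 3 := by
    intro s
    rw [hA, hB]
    unfold F
    linear_combination (s * v) * hu - (s * u) * hv
  have huv : u ≠ 0 ∨ v ≠ 0 := by
    by_contra hcon
    push Not at hcon
    apply h
    rw [hA, hcon.1, hcon.2]
    ring
  by_cases hB0 : B = 0
  · refine ⟨x - 1 * v, y + 1 * u, x - (-1) * v, y + (-1) * u, ?_, ?_⟩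
    · intro he
      rw [Prod.mk.injEq] at he
      rcases huv with h1 | h1
      · apply h1
        have h2 : (2 : K) * u = 0 := by linear_combination he.2
        simpa using h2
      · apply h1
        have h2 : (2 : K) * v = 0 := by linear_combination -he.1
        simpa using h2
    · rw [key, key, hB0]
      ring
  · refine ⟨x - (-(A / B)) * v, y + (-(A / B)) * u, x, y, ?_, ?_⟩
    · have h3 : A / B ≠ 0 := div_ne_zero h hB0
      intro he
      rw [Prod.mk.injEq] at he
      rcases huv with h1 | h1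
      · have h2 : (A / B) * u = 0 := by linear_combination -he.2
        rcases mul_eq_zero.1 h2 with h4 | h4
        · exact h3 h4
        · exact h1 h4
      · have h2 : (A / B) * v = 0 := by linear_combination he.1
        rcases mul_eq_zero.1 h2 with h4 | h4
        · exact h3 h4
        · exact h1 h4
    · rw [key]
      field_simp
      ring

/-- The case where the gradient at the origin, `(a, b)`, is not zero. -/
theorem origin [CharZero K] (hab : a ≠ 0 ∨ b ≠ 0) :
    NotInj (F c a b q20 q11 q02 c30 c21 c12 c03) := by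
  by_contra hcon
  have hall : ∀ t : K, (q20 - 3 * c30 * (t * b) + c21 * (t * a)) *
        (b - q11 * (t * b) + 2 * q02 * (t * a) + c21 * (t * b) ^ 2 - 2 * c12 * (t * b) * (t * a) +
          3 * c03 * (t * a) ^ 2) ^ 2 -
      (q11 - 2 * c21 * (t * b) + 2 * c12 * (t * a)) *
        (a - 2 * q20 * (t * b) + q11 * (t * a) + 3 * c30 * (t * b) ^ 2 -
          2 * c21 * (t * b) * (t * a) + c12 * (t * a) ^ 2) *
        (b - q11 * (t * b) + 2 * q02 * (t * a) + c21 * (t * b) ^ 2 - 2 * c12 * (t * b) * (t * a) +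
          3 * c03 * (t * a) ^ 2) +
      (q02 - c12 * (t * b) + 3 * c03 * (t * a)) *
        (a - 2 * q20 * (t * b) + q11 * (t * a) + 3 * c30 * (t * b) ^ 2 -
          2 * c21 * (t * b) * (t * a) + c12 * (t * a) ^ 2) ^ 2 = 0 := by
    intro t
    by_contra hne
    apply hcon
    refine tangent c a b q20 q11 q02 c30 c21 c12 c03 (-(t * b)) (t * a) _ _ _ _ rfl rfl rfl rfl ?_
    intro h0
    apply hne
    linear_combination h0
  have e0 := hall 0
  have e1 := hall 1
  have e2 := hall (-1)
  have e3 := hall 2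
  have e4 := hall (-2)
  have e5 := hall 3
  have hA : q20 * b ^ 2 - q11 * a * b + q02 * a ^ 2 = 0 := by linear_combination e0
  have h6 : 3 * (-c30 * b ^ 3 + c21 * b ^ 2 * a - c12 * b * a ^ 2 + c03 * a ^ 3) = 0 := by
    linear_combination (1 : K) * e1 + (-1 / 2 : K) * e2 + (-1 / 4 : K) * e3 +
      (1 / 20 : K) * e4 + (1 / 30 : K) * e5 - (1 / 3 : K) * e0
  have hB : -c30 * b ^ 3 + c21 * b ^ 2 * a - c12 * b * a ^ 2 + c03 * a ^ 3 = 0 := by
    rcases mul_eq_zero.1 h6 with h8 | h8
    · exact absurd h8 three_ne_zero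
    · exact h8
  apply hcon
  refine ⟨-b, a, 0, 0, ?_, ?_⟩
  · intro he
    rw [Prod.mk.injEq] at he
    rcases hab with h | h
    · exact h he.2
    · exact h (neg_eq_zero.1 he.1)
  · unfold F
    linear_combination hA + hB

/-- Every polynomial of degree at most three. -/
theorem main [CharZero K] : NotInj (F c a b q20 q11 q02 c30 c21 c12 c03) := by
  by_contra hcon
  have hgrad : ∀ x y : K,
      a + 2 * q20 * x + q11 * y + 3 * c30 * x ^ 2 + 2 * c21 * x * y + c12 * y ^ 2 = 0 ∧
      b + q11 * x + 2 * q02 * y + c21 * x ^ 2 + 2 * c12 * x * y + 3 * c03 * y ^ 2 = 0 := by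
    intro x y
    by_contra hne
    apply hcon
    obtain ⟨p, q, p', q', h1, h2⟩ := origin
      (F c a b q20 q11 q02 c30 c21 c12 c03 x y)
      (a + 2 * q20 * x + q11 * y + 3 * c30 * x ^ 2 + 2 * c21 * x * y + c12 * y ^ 2)
      (b + q11 * x + 2 * q02 * y + c21 * x ^ 2 + 2 * c12 * x * y + 3 * c03 * y ^ 2)
      (q20 + 3 * c30 * x + c21 * y) (q11 + 2 * c21 * x + 2 * c12 * y)
      (q02 + c12 * x + 3 * c03 * y) c30 c21 c12 c03 (by
        by_contra h
        push Not at h
        exact hne h)
    refine ⟨x + p, y + q, x + p', y + q', ?_, ?_⟩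
    · intro he
      apply h1
      rw [Prod.mk.injEq] at he
      rw [Prod.mk.injEq]
      exact ⟨add_left_cancel he.1, add_left_cancel he.2⟩
    · unfold F at h2 ⊢
      linear_combination h2
  have g0 := hgrad 0 0
  have g1 := hgrad 1 0
  have g2 := hgrad (-1) 0
  have g3 := hgrad 0 1
  have g4 := hgrad 0 (-1)
  have g5 := hgrad 1 1
  have ha : a = 0 := by linear_combination g0.1
  have hb : b = 0 := by linear_combination g0.2
  have hc30 : c30 = 0 := by linear_combination (1 / 6 : K) * g1.1 + (1 / 6 : K) * g2.1 - (1 / 3 : K) * g0.1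
  have hq20 : q20 = 0 := by linear_combination (1 / 4 : K) * g1.1 - (1 / 4 : K) * g2.1
  have hc12 : c12 = 0 := by linear_combination (1 / 2 : K) * g3.1 + (1 / 2 : K) * g4.1 - g0.1
  have hq11 : q11 = 0 := by linear_combination (1 / 2 : K) * g3.1 - (1 / 2 : K) * g4.1
  have hc03 : c03 = 0 := by linear_combination (1 / 6 : K) * g3.2 + (1 / 6 : K) * g4.2 - (1 / 3 : K) * g0.2
  have hq02 : q02 = 0 := by linear_combination (1 / 4 : K) * g3.2 - (1 / 4 : K) * g4.2
  have hc21 : c21 = 0 := by
    linear_combination (1 / 2 : K) * g5.1 - (1 / 2 : K) * ha - hq20 - (1 / 2 : K) * hq11 -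
      (3 / 2 : K) * hc30 - (1 / 2 : K) * hc12
  apply hcon
  refine ⟨0, 0, 1, 0, ?_, ?_⟩
  · intro he
    rw [Prod.mk.injEq] at he
    exact zero_ne_one he.1
  · unfold F
    rw [ha, hb, hc30, hq20, hc12, hq11, hc03, hq02, hc21]
    ring

end

/-- **No polynomial of degree at most three in two variables over a field of characteristic zero is
injective.** In particular a polynomial injection `ℚ ^ 2 → ℚ` has degree at least four. -/
theorem result (K : Type) [Field K] [CharZero K] (a : ℕ → ℕ → K) :
    ¬ Function.Injective fun p : K × K => poly a p.1 p.2 := by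
  intro hinj
  obtain ⟨x, y, x', y', h1, h2⟩ := main (a 0 0) (a 1 0) (a 0 1) (a 2 0) (a 1 1) (a 0 2) (a 3 0)
    (a 2 1) (a 1 2) (a 0 3)
  apply h1
  apply hinj
  show poly a x y = poly a x' y'
  rw [poly_eq, poly_eq]
  exact h2

end Pool.Agent.Results.MP_adc87d_lc.DegreeThree
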